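import Mathlib
import Pool.Agent.TH636.Eucl
import Pool.Agent.TH636.Lat

/-!
# Linearizable near an isolated periodic point, but not globally linear on any invariant neighbourhood

The group `SL(n,ℤ)` acts linearly on the open star-shaped set `Om n` of all points of `ℝ^n` which
are not of the form `t z` with `t ≥ 1` and `z` a nonzero integer vector.  The origin is the only
periodic point of this action, the action is linear near the origin (with unbounded derivative) but
no invariant neighbourhood of the origin is equivariantly diffeomorphic to `ℝ^n` with the linear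
action given by the derivative.
-/

open scoped Manifold ContDiff Topology MatrixGroups

namespace Pool.Agent.Results.MP_2392aa_gt.NoGlobalModel

/-- Euclidean space of dimension `n`. -/
abbrev E (n : ℕ) := EuclideanSpace ℝ (Fin n)

/-- The linear map of `ℝ^n` given by `g ∈ SL(n,ℝ)`. -/
noncomputable def lin {n : ℕ} (g : SL(n, ℝ)) : E n →L[ℝ] E n :=
  Matrix.toEuclideanCLM (n := Fin n) (𝕜 := ℝ) (g : Matrix (Fin n) (Fin n) ℝ)

lemma lin_apply {n : ℕ} (A : SL(n, ℝ)) (x : E n) (i : Fin n) :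
    lin A x i = ∑ j, (A : Matrix (Fin n) (Fin n) ℝ) i j * x j := by
  simp [lin, Matrix.ofLp_toEuclideanCLM, Matrix.mulVec, dotProduct]

lemma lin_one {n : ℕ} : lin (1 : SL(n, ℝ)) = 1 := by
  simp [lin]

lemma lin_mul {n : ℕ} (A B : SL(n, ℝ)) : lin (A * B) = lin A * lin B := by
  simp [lin]

lemma lin_mul_apply {n : ℕ} (A B : SL(n, ℝ)) (x : E n) : lin (A * B) x = lin A (lin B x) := by
  rw [lin_mul]
  rfl

/-- The integer vector `z` as a point of `ℝ^n`. -/
def vec {n : ℕ} (z : Fin n → ℤ) : E n := WithLp.toLp 2 (fun i => (z i : ℝ))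

@[simp] lemma vec_apply {n : ℕ} (z : Fin n → ℤ) (i : Fin n) : vec z i = (z i : ℝ) := rfl

lemma vec_ne_zero {n : ℕ} {z : Fin n → ℤ} (hz : z ≠ 0) : vec z ≠ 0 := by
  intro h
  apply hz
  funext i
  have := congrArg (fun x : E n => x i) h
  simpa using this

open Pool.Agent.TH636.Lat (Gam IsLattice isLattice_Gam)

/-- The matrices of `SL(n,ℤ)`, as elements of `Gam n`. -/
def ofZ {n : ℕ} (A : SL(n, ℤ)) : Gam n :=
  ⟨Matrix.SpecialLinearGroup.map (n := Fin n) (Int.castRingHom ℝ) A, ⟨A, rfl⟩⟩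

lemma lin_ofZ {n : ℕ} (A : SL(n, ℤ)) (x : E n) (i : Fin n) :
    lin (ofZ A : SL(n, ℝ)) x i = ∑ j, ((A : Matrix (Fin n) (Fin n) ℤ) i j : ℝ) * x j := by
  rw [lin_apply]
  simp [ofZ]

lemma lin_vec {n : ℕ} (A : SL(n, ℤ)) (z : Fin n → ℤ) :
    lin (ofZ A : SL(n, ℝ)) (vec z) = vec ((A : Matrix (Fin n) (Fin n) ℤ).mulVec z) := by
  ext i
  rw [lin_ofZ]
  simp [Matrix.mulVec, dotProduct]

/-- The set of all `t z` with `t ≥ 1` and `z` a nonzero integer vector. -/
def Rays (n : ℕ) : Set (E n) := {x | ∃ z : Fin n → ℤ, z ≠ 0 ∧ ∃ t : ℝ, 1 ≤ t ∧ x = t • vec z}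

lemma abs_le_norm_vec {n : ℕ} (z : Fin n → ℤ) (i : Fin n) : |(z i : ℝ)| ≤ ‖vec z‖ := by
  have := PiLp.norm_apply_le (vec z) i
  simpa using this

lemma finite_vec {n : ℕ} (C : ℝ) : {z : Fin n → ℤ | ‖vec z‖ ≤ C}.Finite := by
  apply (Set.finite_Icc (fun _ : Fin n => -⌈C⌉) (fun _ : Fin n => ⌈C⌉)).subset
  intro z hz
  have hz : ‖vec z‖ ≤ C := hz
  have h : ∀ i, |z i| ≤ ⌈C⌉ := by
    intro i
    have h1 : |(z i : ℝ)| ≤ ⌈C⌉ := (abs_le_norm_vec z i).trans (hz.trans (Int.le_ceil C))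
    exact_mod_cast h1
  exact ⟨fun i => (abs_le.1 (h i)).1, fun i => (abs_le.1 (h i)).2⟩

lemma isClosed_rays (n : ℕ) : IsClosed (Rays n) := by
  have h : Rays n = ⋃ z : {z : Fin n → ℤ // z ≠ 0}, (fun t : ℝ => t • vec z.1) '' Set.Ici 1 := by
    ext x
    simp only [Rays, Set.mem_ofPred_eq, Set.mem_iUnion, Set.mem_image, Set.mem_Ici]
    constructor
    · rintro ⟨z, hz, t, ht, rfl⟩
      exact ⟨⟨z, hz⟩, t, ht, rfl⟩
    · rintro ⟨⟨z, hz⟩, t, ht, rfl⟩
      exact ⟨z, hz, t, ht, rfl⟩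
  rw [h]
  apply LocallyFinite.isClosed_iUnion
  · intro x
    refine ⟨Metric.ball x 1, Metric.ball_mem_nhds x one_pos, ?_⟩
    have hfin : {z : {z : Fin n → ℤ // z ≠ 0} | ‖vec z.1‖ ≤ ‖x‖ + 1}.Finite := by
      apply Set.Finite.preimage (f := Subtype.val) Subtype.val_injective.injOn
        (finite_vec (n := n) (‖x‖ + 1))
    apply hfin.subset
    rintro z ⟨y, ⟨t, ht, rfl⟩, hy⟩
    have h1 : ‖t • vec z.1‖ ≤ ‖x‖ + 1 := by
      have := mem_ball_iff_norm.1 hy
      calc ‖t • vec z.1‖ = ‖x + (t • vec z.1 - x)‖ := by congr 1; abel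
        _ ≤ ‖x‖ + ‖t • vec z.1 - x‖ := norm_add_le _ _
        _ ≤ ‖x‖ + 1 := by gcongr
    have ht : (1 : ℝ) ≤ t := ht
    rw [norm_smul, Real.norm_of_nonneg (by linarith)] at h1
    have h2 := norm_nonneg (vec z.1)
    change ‖vec z.1‖ ≤ ‖x‖ + 1
    nlinarith
  · intro z
    have hz := vec_ne_zero z.2
    have hc : Topology.IsClosedEmbedding (fun t : ℝ => t • vec z.1) :=
      isClosedEmbedding_smul_left hz
    exact hc.isClosedMap _ isClosed_Ici

/-- The open star-shaped set of all points which are not of the form `t z` with `t ≥ 1` and `z` a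
nonzero integer vector. -/
def Om (n : ℕ) : TopologicalSpace.Opens (E n) := ⟨(Rays n)ᶜ, (isClosed_rays n).isOpen_compl⟩

lemma zero_mem (n : ℕ) : (0 : E n) ∈ Om n := by
  rintro ⟨z, hz, t, ht, h⟩
  have := vec_ne_zero hz
  rcases smul_eq_zero.1 h.symm with h | h
  · linarith
  · exact this h

lemma mulVec_ne_zero {n : ℕ} (A : SL(n, ℤ)) {z : Fin n → ℤ} (hz : z ≠ 0) :
    (A : Matrix (Fin n) (Fin n) ℤ).mulVec z ≠ 0 := by
  intro h
  apply hz
  have h1 : ((A⁻¹ : SL(n, ℤ)) : Matrix (Fin n) (Fin n) ℤ).mulVec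
      ((A : Matrix (Fin n) (Fin n) ℤ).mulVec z) = z := by
    rw [Matrix.mulVec_mulVec, ← Matrix.SpecialLinearGroup.coe_mul, inv_mul_cancel]
    simp
  rw [← h1, h, Matrix.mulVec_zero]

lemma lin_mem_rays {n : ℕ} (g : Gam n) {x : E n} (hx : x ∈ Rays n) :
    lin (g : SL(n, ℝ)) x ∈ Rays n := by
  obtain ⟨g, A, rfl⟩ := g
  obtain ⟨z, hz, t, ht, rfl⟩ := hx
  refine ⟨(A : Matrix (Fin n) (Fin n) ℤ).mulVec z, mulVec_ne_zero A hz, t, ht, ?_⟩
  rw [map_smul]
  congr 1
  exact lin_vec A z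

lemma lin_mem {n : ℕ} (g : Gam n) {x : E n} (hx : x ∈ Om n) : lin (g : SL(n, ℝ)) x ∈ Om n := by
  intro h
  apply hx
  have h1 := lin_mem_rays g⁻¹ h
  have h2 : ((g⁻¹ : Gam n) : SL(n, ℝ)) = (g : SL(n, ℝ))⁻¹ := rfl
  rw [h2, ← lin_mul_apply, inv_mul_cancel, lin_one] at h1
  exact h1

/-- The linear action of `SL(n,ℤ)` on `Om n`. -/
noncomputable instance act (n : ℕ) : MulAction (Gam n) (Om n) where
  smul g x := ⟨lin (g : SL(n, ℝ)) x, lin_mem g x.2⟩
  one_smul x := Subtype.ext (by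
    change lin (1 : SL(n, ℝ)) (x : E n) = x
    rw [lin_one]; rfl)
  mul_smul g h x := Subtype.ext (by
    change lin ((g : SL(n, ℝ)) * (h : SL(n, ℝ))) (x : E n) = _
    rw [lin_mul_apply]; rfl)

lemma smul_val {n : ℕ} (g : Gam n) (x : Om n) :
    ((g • x : Om n) : E n) = lin (g : SL(n, ℝ)) (x : E n) := rfl

/-- The origin. -/
def org (n : ℕ) : Om n := ⟨0, zero_mem n⟩

lemma smul_org {n : ℕ} (g : Gam n) : g • org n = org n := Subtype.ext (by
  rw [smul_val]; exact map_zero _)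

lemma contMDiff_to_opens {k n : ℕ} {M : Type*} [TopologicalSpace M] [ChartedSpace (E k) M]
    {U : TopologicalSpace.Opens (E n)} {f : M → U} {x : M}
    (h : ContMDiffAt (𝓡 k) (𝓡 n) ∞ (fun y => (f y : E n)) x) : ContMDiffAt (𝓡 k) (𝓡 n) ∞ f x :=
  (ChartedSpace.liftPropWithinAt_subtypeVal_comp_iff f Set.univ x).1 h

lemma contMDiff_smul {n : ℕ} (g : Gam n) :
    ContMDiff (𝓡 n) (𝓡 n) ∞ (fun y : Om n => g • y) := by
  intro x
  apply contMDiff_to_opens
  change ContMDiffAt (𝓡 n) (𝓡 n) ∞ (fun y : Om n => lin (g : SL(n, ℝ)) (y : E n)) x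
  exact ((lin (g : SL(n, ℝ))).contDiff.contDiffAt (n := ∞)).contMDiffAt.comp x
    contMDiff_subtype_val.contMDiffAt

/-! ### Smooth actions, derivatives at fixed points, linearizability -/

/-- `M` is a smooth `n`-manifold (Hausdorff, second countable) on which `Γ` acts by smooth maps. -/
def SmoothAction (n : ℕ) (Γ M : Type) [Group Γ] [TopologicalSpace M] [ChartedSpace (E n) M]
    [MulAction Γ M] : Prop :=
  IsManifold (𝓡 n) ∞ M ∧ T2Space M ∧ SecondCountableTopology M ∧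
    ∀ γ : Γ, ContMDiff (𝓡 n) (𝓡 n) ∞ (fun x : M => γ • x)

/-- The derivative of `γ` at the point `p` (fixed by `γ`), a linear map of the tangent space at `p`,
which is identified with `ℝ^n` by the preferred chart at `p`. -/
noncomputable def der (n : ℕ) {Γ M : Type} [Group Γ] [TopologicalSpace M] [ChartedSpace (E n) M]
    [MulAction Γ M] (p : M) (γ : Γ) : E n →L[ℝ] E n :=
  mfderiv (𝓡 n) (𝓡 n) (fun x : M => γ • x) p

/-- `φ` restricts to a smooth diffeomorphism from the set `V` onto the set `W`. -/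
def DiffeoOn {n : ℕ} {M : Type} [TopologicalSpace M] [ChartedSpace (E n) M]
    (φ : M → E n) (V : Set M) (W : Set (E n)) : Prop :=
  ContMDiffOn (𝓡 n) (𝓡 n) ∞ φ V ∧ Set.MapsTo φ V W ∧
    ∃ ψ : E n → M, ContMDiffOn (𝓡 n) (𝓡 n) ∞ ψ W ∧ Set.MapsTo ψ W V ∧
      (∀ x ∈ V, ψ (φ x) = x) ∧ ∀ v ∈ W, φ (ψ v) = v

/-- The action is linearizable near the fixed point `p`. -/
def LinearizableNear (n : ℕ) (Γ : Type) {M : Type} [Group Γ] [TopologicalSpace M]
    [ChartedSpace (E n) M] [MulAction Γ M] (p : M) : Prop :=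
  ∃ (V : Set M) (W : Set (E n)) (φ : M → E n), IsOpen V ∧ p ∈ V ∧ IsOpen W ∧ DiffeoOn φ V W ∧
    φ p = 0 ∧ ∀ γ : Γ, ∀ x ∈ V, γ • x ∈ V → φ (γ • x) = der n p γ (φ x)

/-- There is an invariant open neighbourhood of the fixed point `p` on which the action is smoothly
conjugate to the linear action of the group on all of `ℝ^n` by the derivatives at `p`. -/
def HasLinearNeighborhood (n : ℕ) (Γ : Type) {M : Type} [Group Γ] [TopologicalSpace M]
    [ChartedSpace (E n) M] [MulAction Γ M] (p : M) : Prop :=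
  ∃ (U : Set M) (φ : M → E n), IsOpen U ∧ p ∈ U ∧ (∀ γ : Γ, ∀ x ∈ U, γ • x ∈ U) ∧
    DiffeoOn φ U Set.univ ∧ ∀ γ : Γ, ∀ x ∈ U, φ (γ • x) = der n p γ (φ x)

/-! ### The derivative at the origin -/

/-- The derivative of the inclusion of `Om n` at the origin. -/
noncomputable def J (n : ℕ) : E n →L[ℝ] E n :=
  mfderiv (𝓡 n) (𝓡 n) (Subtype.val : Om n → E n) (org n)

lemma mdiff_val {n : ℕ} (x : Om n) :
    MDifferentiableAt (𝓡 n) (𝓡 n) (Subtype.val : Om n → E n) x :=
  ((contMDiff_subtype_val (n := ∞)) x).mdifferentiableAt (by simp)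

/-- A left inverse of the inclusion. -/
noncomputable def ret (n : ℕ) (x : E n) : Om n :=
  open Classical in if h : x ∈ Om n then ⟨x, h⟩ else org n

lemma ret_val {n : ℕ} (x : Om n) : ret n (x : E n) = x := by
  unfold ret
  rw [dif_pos x.2]

lemma val_ret {n : ℕ} {x : E n} (h : x ∈ Om n) : (ret n x : E n) = x := by
  unfold ret
  rw [dif_pos h]

lemma mdiff_ret (n : ℕ) : MDifferentiableAt (𝓡 n) (𝓡 n) (ret n) (0 : E n) := by
  have h : ContMDiffAt (𝓡 n) (𝓡 n) ∞ (ret n) (0 : E n) := by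
    apply contMDiff_to_opens
    have h1 : (fun y : E n => (ret n y : E n)) =ᶠ[𝓝 0] fun y => y := by
      filter_upwards [(Om n).isOpen.mem_nhds (zero_mem n)] with y hy
      exact val_ret hy
    exact (contMDiffAt_id (x := (0 : E n))).congr_of_eventuallyEq h1
  exact h.mdifferentiableAt (by simp)

lemma ret_zero (n : ℕ) : ret n 0 = org n := ret_val (org n)

/-- The inverse of the derivative of the inclusion. -/
noncomputable def J' (n : ℕ) : E n →L[ℝ] E n :=
  mfderiv (𝓡 n) (𝓡 n) (ret n) (0 : E n)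

lemma J_J' (n : ℕ) (v : E n) : J n (J' n v) = v := by
  have h2 : MDifferentiableAt (𝓡 n) (𝓡 n) (Subtype.val : Om n → E n) (ret n (0 : E n)) := mdiff_val _
  have h3 := mfderiv_comp (0 : E n) h2 (mdiff_ret n)
  have h1 : ((Subtype.val : Om n → E n) ∘ ret n) =ᶠ[𝓝 0] id := by
    filter_upwards [(Om n).isOpen.mem_nhds (zero_mem n)] with y hy
    exact val_ret hy
  rw [h1.mfderiv_eq, mfderiv_id] at h3
  have h4 := DFunLike.congr_fun h3 v
  have h5 : (mfderiv (𝓡 n) (𝓡 n) (Subtype.val : Om n → E n) (ret n (0 : E n)))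
      ((mfderiv (𝓡 n) (𝓡 n) (ret n) (0 : E n)) v) = J n (J' n v) := by
    unfold J J'
    rw [ret_zero]
    rfl
  rw [← h5]
  exact h4.symm

lemma J'_J (n : ℕ) (v : E n) : J' n (J n v) = v := by
  have h2 : MDifferentiableAt (𝓡 n) (𝓡 n) (ret n) ((Subtype.val : Om n → E n) (org n)) :=
    mdiff_ret n
  have h3 := mfderiv_comp (org n) h2 (mdiff_val (org n))
  have h1 : (ret n ∘ (Subtype.val : Om n → E n)) = id := by
    funext y
    exact ret_val y
  rw [h1, mfderiv_id] at h3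
  exact (DFunLike.congr_fun h3 v).symm

lemma J_der {n : ℕ} (g : Gam n) (v : E n) :
    J n (der n (org n) g v) = lin (g : SL(n, ℝ)) (J n v) := by
  have h1 : MDifferentiableAt (𝓡 n) (𝓡 n) (fun x : Om n => g • x) (org n) :=
    (contMDiff_smul g (org n)).mdifferentiableAt (by simp)
  have h2 : MDifferentiableAt (𝓡 n) (𝓡 n) (Subtype.val : Om n → E n) ((fun x : Om n => g • x) (org n)) :=
    mdiff_val _
  have h3 := mfderiv_comp (org n) h2 h1
  have h4 : MDifferentiableAt (𝓡 n) (𝓡 n) (lin (g : SL(n, ℝ))) ((Subtype.val : Om n → E n) (org n)) :=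
    (lin (g : SL(n, ℝ))).differentiableAt.mdifferentiableAt
  have h5 := mfderiv_comp (org n) h4 (mdiff_val (org n))
  have h6 : (Subtype.val : Om n → E n) ∘ (fun x : Om n => g • x) =
      (lin (g : SL(n, ℝ))) ∘ (Subtype.val : Om n → E n) := rfl
  rw [h6, h5] at h3
  have h7 := DFunLike.congr_fun h3 v
  have h8 : (mfderiv (𝓡 n) (𝓡 n) (Subtype.val : Om n → E n) ((fun x : Om n => g • x) (org n)))
      ((mfderiv (𝓡 n) (𝓡 n) (fun x : Om n => g • x) (org n)) v) = J n (der n (org n) g v) := by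
    have : (fun x : Om n => g • x) (org n) = org n := smul_org g
    unfold J der
    rw [this]
    rfl
  rw [← h8]
  refine Eq.trans h7.symm ?_
  change (mfderiv (𝓡 n) (𝓡 n) (lin (g : SL(n, ℝ))) ((Subtype.val : Om n → E n) (org n)))
    (J n v) = _
  rw [mfderiv_eq_fderiv, (lin (g : SL(n, ℝ))).fderiv]
  rfl

lemma der_eq {n : ℕ} (g : Gam n) (v : E n) :
    der n (org n) g v = J' n (lin (g : SL(n, ℝ)) (J n v)) := by
  rw [← J_der, J'_J]

/-! ### Transvections -/

open Pool.Agent.TH636.Eucl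

lemma lin_T {n : ℕ} {i j : Fin n} (h : i ≠ j) (k : ℤ) (x : E n) (l : Fin n) :
    lin (ofZ (T h k) : SL(n, ℝ)) x l = x l + if l = i then (k : ℝ) * x j else 0 := by
  rw [lin_ofZ]
  simp only [T, Matrix.transvection, Matrix.add_apply, Int.cast_add, add_mul,
    Finset.sum_add_distrib]
  congr 1
  · simp [Matrix.one_apply]
  · by_cases hl : l = i
    · subst hl
      rw [Finset.sum_eq_single j]
      · simp
      · intro b _ hb
        simp [Ne.symm hb]
      · simp
    · simp [hl, Ne.symm hl]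

/-! ### Equivariant maps are homotheties -/

/-- The basis vector `e_a`. -/
noncomputable def ev {n : ℕ} (a : Fin n) : E n := vec (Pi.single a 1)

lemma ev_apply {n : ℕ} (a l : Fin n) : ev a l = if l = a then 1 else 0 := by
  unfold ev
  rw [vec_apply, Pi.single_apply]
  split_ifs <;> simp

section Rigid

variable {n : ℕ} {f : E n → E n} (hf : ∀ (A : SL(n, ℤ)) (x : E n),
  f (lin (ofZ A : SL(n, ℝ)) x) = lin (ofZ A : SL(n, ℝ)) (f x))

include hf

lemma f_ev {a b : Fin n} (hab : a ≠ b) (t : ℝ) : f (t • ev a) = (f (t • ev a) a) • ev a := by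
  ext l
  by_cases hl : l = a
  · subst hl
    simp [ev_apply]
  · have h1 : lin (ofZ (T (Ne.symm hl) 1) : SL(n, ℝ)) (t • ev a) = t • ev a := by
      ext m
      rw [lin_T]
      simp [ev_apply, hl]
    have h2 := hf (T (Ne.symm hl) 1) (t • ev a)
    rw [h1] at h2
    have h3 := congrArg (fun x : E n => x a) h2
    simp only [lin_T, if_true] at h3
    have h4 : f (t • ev a) l = 0 := by
      push_cast at h3
      linarith
    rw [h4]
    simp [ev_apply, hl]

lemma f_zero {a b : Fin n} (hab : a ≠ b) : f 0 = 0 := by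
  have h1 := f_ev hf hab 0
  have h2 := f_ev hf hab.symm 0
  rw [zero_smul] at h1 h2
  have h3 : f 0 a = 0 := by
    rw [h2]
    simp [ev_apply, hab]
  rw [h1, h3, zero_smul]

/-- The scaling factor on the line spanned by `e_a` is linear. -/
lemma factor {a b : Fin n} (hab : a ≠ b) (hc : Continuous f) (hd : DifferentiableAt ℝ f 0) :
    ∃ c : ℝ, ∀ t : ℝ, f (t • ev a) = (c * t) • ev a := by
  obtain ⟨D, hD⟩ := hd
  refine ⟨D (ev a) a, fun t => ?_⟩
  -- the quotient `c(s)/s` tends to `c`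
  have hlim : Filter.Tendsto (fun s : ℝ => s⁻¹ * f (s • ev a) a) (𝓝[≠] 0) (𝓝 (D (ev a) a)) := by
    have h1 : HasDerivAt (fun s : ℝ => f (s • ev a)) (D (ev a)) 0 := by
      have hD' : HasFDerivAt f D ((0 : ℝ) • ev a) := by rwa [zero_smul]
      have h2 : HasDerivAt (fun s : ℝ => s • ev a) ((1 : ℝ) • ev a) 0 :=
        (hasDerivAt_id (0 : ℝ)).smul_const (ev a)
      have h3 := hD'.comp_hasDerivAt (0 : ℝ) h2
      rwa [one_smul] at h3
    have h4 := h1.tendsto_slope_zero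
    have h5 : Filter.Tendsto (fun x : E n => x a) (𝓝 (D (ev a))) (𝓝 (D (ev a) a)) :=
      (EuclideanSpace.proj (𝕜 := ℝ) a).continuous.tendsto _
    refine (h5.comp h4).congr fun s => ?_
    simp [f_zero hf hab]
  by_cases ht : t = 0
  · subst ht
    simp [f_zero hf hab]
  -- the points `(t/k) (k e_a + e_b)` tend to `t e_a`
  have hpt : ∀ k : ℕ, f ((t / (k + 1 : ℝ)) • (ev b + (k + 1 : ℝ) • ev a)) =
      ((t / (k + 1 : ℝ))⁻¹ * f ((t / (k + 1 : ℝ)) • ev a) a) •
        ((t / (k + 1 : ℝ)) • (ev b + (k + 1 : ℝ) • ev a)) := by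
    intro k
    have hk : (k + 1 : ℝ) ≠ 0 := by positivity
    have htk : t / (k + 1 : ℝ) ≠ 0 := div_ne_zero ht hk
    have key : ∀ s : ℝ, lin (ofZ (T hab (k : ℤ) * T hab.symm 1) : SL(n, ℝ)) (s • ev a) =
        s • (ev b + (k + 1 : ℝ) • ev a) := by
      intro s
      have : (ofZ (T hab (k : ℤ) * T hab.symm 1) : SL(n, ℝ)) =
          (ofZ (T hab (k : ℤ)) : SL(n, ℝ)) * (ofZ (T hab.symm 1) : SL(n, ℝ)) := by
        simp [ofZ]
      rw [this, lin_mul_apply]
      ext l
      rw [lin_T, lin_T, lin_T]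
      by_cases hla : l = a
      · subst hla
        simp [ev_apply, hab, hab.symm]
        ring
      · by_cases hlb : l = b
        · subst hlb
          simp [ev_apply, hla]
        · simp [ev_apply, hla, hlb]
    have h1 := hf (T hab (k : ℤ) * T hab.symm 1) ((t / (k + 1 : ℝ)) • ev a)
    rw [key] at h1
    rw [h1, f_ev hf hab, key, smul_smul]
    congr 1
    field_simp
    simp [ev_apply]
  have hk0 : Filter.Tendsto (fun k : ℕ => t / (k + 1 : ℝ)) Filter.atTop (𝓝[≠] 0) := by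
    rw [tendsto_nhdsWithin_iff]
    constructor
    · have := (tendsto_one_div_add_atTop_nhds_zero_nat (𝕜 := ℝ)).const_mul t
      simpa [div_eq_mul_inv] using this
    · exact Filter.Eventually.of_forall fun k => div_ne_zero ht (by positivity)
  have hpts : Filter.Tendsto (fun k : ℕ => (t / (k + 1 : ℝ)) • (ev b + (k + 1 : ℝ) • ev a))
      Filter.atTop (𝓝 (t • ev a)) := by
    have h1 : (fun k : ℕ => (t / (k + 1 : ℝ)) • (ev b + (k + 1 : ℝ) • ev a)) =
        fun k : ℕ => (t / (k + 1 : ℝ)) • ev b + t • ev a := by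
      funext k
      have hk : (k + 1 : ℝ) ≠ 0 := by positivity
      rw [smul_add, smul_smul]
      congr 2
      field_simp
    rw [h1]
    have h2 : Filter.Tendsto (fun k : ℕ => (t / (k + 1 : ℝ)) • ev b) Filter.atTop
        (𝓝 ((0 : ℝ) • ev b)) := (hk0.mono_right nhdsWithin_le_nhds).smul_const _
    have h3 := h2.add_const (t • ev a)
    rwa [zero_smul, zero_add] at h3
  have h1 : Filter.Tendsto (fun k : ℕ => f ((t / (k + 1 : ℝ)) • (ev b + (k + 1 : ℝ) • ev a)))
      Filter.atTop (𝓝 (f (t • ev a))) := (hc.tendsto _).comp hpts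
  have h2 : Filter.Tendsto (fun k : ℕ => f ((t / (k + 1 : ℝ)) • (ev b + (k + 1 : ℝ) • ev a)))
      Filter.atTop (𝓝 ((D (ev a) a) • (t • ev a))) := by
    simp_rw [hpt]
    exact (hlim.comp hk0).smul hpts
  rw [tendsto_nhds_unique h1 h2, smul_smul]

/-- A continuous map commuting with `SL(n,ℤ)` and differentiable at the origin is a homothety. -/
lemma homothety {a b : Fin n} (hab : a ≠ b) (hc : Continuous f) (hd : DifferentiableAt ℝ f 0) :
    ∃ c : ℝ, ∀ x : E n, f x = c • x := by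
  obtain ⟨c, hcc⟩ := factor hf hab hc hd
  refine ⟨c, ?_⟩
  have h1 : ∀ (t : ℝ) (z : Fin n → ℤ), f (t • vec z) = c • (t • vec z) := by
    intro t z
    obtain ⟨A, g, hA⟩ := euclid a _ z le_rfl
    have hz : z = ((A⁻¹ : SL(n, ℤ)) : Matrix (Fin n) (Fin n) ℤ).mulVec (Pi.single a g) := by
      rw [← hA, Matrix.mulVec_mulVec, ← Matrix.SpecialLinearGroup.coe_mul, inv_mul_cancel]
      simp
    have hv : vec (Pi.single a g : Fin n → ℤ) = (g : ℝ) • ev a := by
      ext l
      rw [vec_apply, Pi.single_apply]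
      simp only [PiLp.smul_apply, ev_apply, smul_eq_mul]
      split_ifs <;> simp
    have h2 : t • vec z = lin (ofZ A⁻¹ : SL(n, ℝ)) ((t * g) • ev a) := by
      conv_lhs => rw [hz]
      rw [← lin_vec, hv, ← map_smul, smul_smul]
    rw [h2, hf, hcc, ← map_smul, smul_smul]
  have hdense : DenseRange (fun p : ℕ × (Fin n → ℤ) => ((p.1 + 1 : ℝ)⁻¹) • (vec p.2 : E n)) := by
    intro x
    rw [Metric.mem_closure_range_iff]
    intro ε hε
    obtain ⟨k, hk⟩ := exists_nat_gt (Real.sqrt n / ε)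
    refine ⟨(k, fun i => ⌊(k + 1 : ℝ) * x i⌋), ?_⟩
    have hk1 : (0 : ℝ) < k + 1 := by positivity
    have hb : ∀ i, |(x - ((k + 1 : ℝ)⁻¹) • (vec (fun i => ⌊(k + 1 : ℝ) * x i⌋) : E n)) i| ≤
        (k + 1 : ℝ)⁻¹ := by
      intro i
      have e : (x - ((k + 1 : ℝ)⁻¹) • (vec (fun i => ⌊(k + 1 : ℝ) * x i⌋) : E n)) i =
          (k + 1 : ℝ)⁻¹ * ((k + 1 : ℝ) * x i - ⌊(k + 1 : ℝ) * x i⌋) := by
        simp only [PiLp.sub_apply, PiLp.smul_apply, vec_apply, smul_eq_mul]
        field_simp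
      rw [e, abs_mul, abs_of_pos (inv_pos.2 hk1)]
      have h3 := Int.floor_le ((k + 1 : ℝ) * x i)
      have h4 := Int.lt_floor_add_one ((k + 1 : ℝ) * x i)
      have h5 : |(k + 1 : ℝ) * x i - ⌊(k + 1 : ℝ) * x i⌋| ≤ 1 := by
        rw [abs_le]; constructor <;> linarith
      nlinarith [inv_pos.2 hk1]
    rw [dist_eq_norm]
    have h6 : ‖x - ((k + 1 : ℝ)⁻¹) • (vec (fun i => ⌊(k + 1 : ℝ) * x i⌋) : E n)‖ ≤
        Real.sqrt n * (k + 1 : ℝ)⁻¹ := by
      rw [EuclideanSpace.norm_eq]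
      have h7 : ∑ i, ‖(x - ((k + 1 : ℝ)⁻¹) • (vec (fun i => ⌊(k + 1 : ℝ) * x i⌋) : E n)) i‖ ^ 2 ≤
          (n : ℝ) * ((k + 1 : ℝ)⁻¹) ^ 2 := by
        calc _ ≤ ∑ _i : Fin n, ((k + 1 : ℝ)⁻¹) ^ 2 := by
              apply Finset.sum_le_sum
              intro i _
              rw [Real.norm_eq_abs]
              exact pow_le_pow_left₀ (abs_nonneg _) (hb i) 2
          _ = _ := by simp
      calc _ ≤ Real.sqrt ((n : ℝ) * ((k + 1 : ℝ)⁻¹) ^ 2) := Real.sqrt_le_sqrt h7
        _ = _ := by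
            rw [Real.sqrt_mul (by positivity), Real.sqrt_sq (by positivity)]
    refine lt_of_le_of_lt h6 ?_
    rw [← div_eq_mul_inv, div_lt_iff₀ hk1]
    rw [div_lt_iff₀ hε] at hk
    nlinarith
  have heq : f = fun x => c • x := by
    apply hdense.equalizer hc (continuous_const_smul c)
    funext p
    exact h1 _ _
  exact fun x => congrFun heq x

end Rigid

/-! ### The example -/

lemma smoothAction_Om (n : ℕ) : SmoothAction n (Gam n) (Om n) :=
  ⟨inferInstance, inferInstance, inferInstance, contMDiff_smul⟩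

lemma starConvex_Om (n : ℕ) : StarConvex ℝ (0 : E n) (Om n : Set (E n)) := by
  rw [starConvex_zero_iff]
  rintro x hx s hs0 hs1 ⟨z, hz, t, ht, h⟩
  apply hx
  rcases hs0.eq_or_lt with rfl | hs
  · exfalso
    rw [zero_smul] at h
    rcases smul_eq_zero.1 h.symm with h | h
    · linarith
    · exact vec_ne_zero hz h
  · refine ⟨z, hz, s⁻¹ * t, ?_, ?_⟩
    · have := (one_le_inv₀ hs).2 hs1
      nlinarith
    · rw [mul_smul, ← h, smul_smul, inv_mul_cancel₀ hs.ne', one_smul]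

lemma contractible_Om (n : ℕ) : ContractibleSpace (Om n) :=
  (starConvex_Om n).contractibleSpace ⟨0, zero_mem n⟩

/-- The only periodic point is the origin. -/
lemma periodic_Om {n : ℕ} (hn : 2 ≤ n) (x : Om n) (hx : (MulAction.orbit (Gam n) x).Finite) :
    x = org n := by
  by_contra hne
  have h0 : ∃ j, (x : E n) j ≠ 0 := by
    by_contra hall
    push Not at hall
    apply hne
    apply Subtype.ext
    ext j
    exact hall j
  obtain ⟨j, hj⟩ := h0
  obtain ⟨i, hi⟩ : ∃ i : Fin n, i ≠ j := by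
    have : Nontrivial (Fin n) := Fin.nontrivial_iff_two_le.2 hn
    exact exists_ne j
  have hinj : Function.Injective (fun k : ℤ => (ofZ (T hi k)) • x) := by
    intro k l hkl
    have h1 := congrArg (fun y : Om n => (y : E n) i) hkl
    simp only [smul_val, lin_T, if_true] at h1
    have h2 : (k : ℝ) = l := by
      have h3 : (k : ℝ) * (x : E n) j = l * (x : E n) j := by linarith
      exact mul_right_cancel₀ hj h3
    exact_mod_cast h2
  exact Set.infinite_range_of_injective hinj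
    (hx.subset (by rintro _ ⟨k, rfl⟩; exact MulAction.mem_orbit _ _))

lemma lin_T_ev {n : ℕ} {i j : Fin n} (h : i ≠ j) (k : ℤ) :
    lin (ofZ (T h k) : SL(n, ℝ)) (ev j) = ev j + (k : ℝ) • ev i := by
  ext l
  rw [lin_T]
  by_cases hl : l = i
  · subst hl
    simp [ev_apply]
  · simp [ev_apply, hl]

lemma ev_ne_zero {n : ℕ} (i : Fin n) : ev i ≠ 0 := by
  intro h
  have := congrArg (fun x : E n => x i) h
  simp [ev_apply] at this

lemma unbounded_der {n : ℕ} (hn : 2 ≤ n) (C : ℝ) : ∃ g : Gam n, C < ‖der n (org n) g‖ := by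
  have i : Fin n := ⟨0, by omega⟩
  obtain ⟨j, hij⟩ : ∃ j : Fin n, i ≠ j := by
    have : Nontrivial (Fin n) := Fin.nontrivial_iff_two_le.2 hn
    obtain ⟨j, hj⟩ := exists_ne i
    exact ⟨j, hj.symm⟩
  have hJ : Function.Injective (J' n) := fun u v h => by rw [← J_J' n u, ← J_J' n v, h]
  have hi : J' n (ev i) ≠ 0 := by
    rw [← map_zero (J' n)]
    exact fun h => ev_ne_zero i (hJ h)
  have hj : J' n (ev j) ≠ 0 := by
    rw [← map_zero (J' n)]
    exact fun h => ev_ne_zero j (hJ h)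
  have hi' := norm_pos_iff.2 hi
  have hj' := norm_pos_iff.2 hj
  obtain ⟨k, hk⟩ := exists_nat_gt (((|C| + 1) * ‖J' n (ev j)‖) / ‖J' n (ev i)‖)
  rw [div_lt_iff₀ hi'] at hk
  refine ⟨ofZ (T hij (k : ℤ)), ?_⟩
  have h1 : der n (org n) (ofZ (T hij (k : ℤ))) (J' n (ev j)) = J' n (ev j) + (k : ℝ) • J' n (ev i) := by
    rw [der_eq, J_J', lin_T_ev, map_add, map_smul]
    simp
  have h2 := (der n (org n) (ofZ (T hij (k : ℤ)))).le_opNorm (J' n (ev j))
  rw [h1] at h2
  have h3 : (k : ℝ) * ‖J' n (ev i)‖ ≤ ‖J' n (ev j) + (k : ℝ) • J' n (ev i)‖ + ‖J' n (ev j)‖ := by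
    have h4 : (k : ℝ) • J' n (ev i) = (J' n (ev j) + (k : ℝ) • J' n (ev i)) - J' n (ev j) := by
      abel
    calc (k : ℝ) * ‖J' n (ev i)‖ = ‖(k : ℝ) • J' n (ev i)‖ := by
          rw [norm_smul, Real.norm_of_nonneg (Nat.cast_nonneg k)]
      _ = ‖(J' n (ev j) + (k : ℝ) • J' n (ev i)) - J' n (ev j)‖ := by rw [← h4]
      _ ≤ _ := norm_sub_le _ _
  have h5 : (|C| + 1) * ‖J' n (ev j)‖ <
      (‖der n (org n) (ofZ (T hij (k : ℤ)))‖ + 1) * ‖J' n (ev j)‖ := by
    calc _ < (k : ℝ) * ‖J' n (ev i)‖ := hk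
      _ ≤ _ := h3
      _ ≤ _ := by linarith
  have h6 := lt_of_mul_lt_mul_right h5 hj'.le
  linarith [le_abs_self C]

lemma linearizable_Om (n : ℕ) : LinearizableNear n (Gam n) (org n) := by
  refine ⟨Set.univ, J n ⁻¹' (Om n : Set (E n)), fun x => J' n (x : E n), isOpen_univ,
    Set.mem_univ _, (Om n).isOpen.preimage (J n).continuous, ⟨?_, ?_, fun v => ret n (J n v), ?_,
      fun v _ => Set.mem_univ _, ?_, ?_⟩, map_zero _, ?_⟩
  · exact (((J' n).contDiff (n := ∞)).contMDiff.comp contMDiff_subtype_val).contMDiffOn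
  · intro x _
    change J n (J' n (x : E n)) ∈ Om n
    rw [J_J']
    exact x.2
  · intro v hv
    have hv : J n v ∈ Om n := hv
    apply ContMDiffAt.contMDiffWithinAt
    apply contMDiff_to_opens
    have h1 : (fun y : E n => (ret n (J n y) : E n)) =ᶠ[𝓝 v] fun y => J n y := by
      filter_upwards [((Om n).isOpen.preimage (J n).continuous).mem_nhds hv] with y hy
      exact val_ret hy
    exact (((J n).contDiff (n := ∞)).contMDiff.contMDiffAt).congr_of_eventuallyEq h1
  · intro x _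
    change ret n (J n (J' n (x : E n))) = x
    rw [J_J', ret_val]
  · intro v hv
    change J' n (ret n (J n v) : E n) = v
    rw [val_ret hv, J'_J]
  · intro g x _ _
    change J' n (lin (g : SL(n, ℝ)) (x : E n)) = _
    rw [der_eq, J_J']

lemma not_global {n : ℕ} (hn : 2 ≤ n) : ¬ HasLinearNeighborhood n (Gam n) (org n) := by
  rintro ⟨U, φ, -, -, hU, ⟨-, -, ψ, hψ, hψU, hψφ, hφψ⟩, hφ⟩
  have hψ' : ContMDiff (𝓡 n) (𝓡 n) ∞ ψ := contMDiffOn_univ.1 hψ
  have hequiv : ∀ (g : Gam n) (v : E n), ψ (der n (org n) g v) = g • ψ v := by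
    intro g v
    have h1 := hφ g (ψ v) (hψU (Set.mem_univ v))
    rw [hφψ v (Set.mem_univ v)] at h1
    rw [← h1]
    exact hψφ _ (hU g _ (hψU (Set.mem_univ v)))
  -- the map in the coordinates of `ℝ^n`
  have hdiff : ContDiff ℝ ∞ (fun x : E n => (ψ (J' n x) : E n)) := by
    have h1 : ContMDiff (𝓡 n) (𝓡 n) ∞ (fun x : E n => (ψ (J' n x) : E n)) :=
      (contMDiff_subtype_val.comp hψ').comp ((J' n).contDiff (n := ∞)).contMDiff
    exact h1.contDiff
  obtain ⟨a, b, hab⟩ : ∃ a b : Fin n, a ≠ b := by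
    have : Nontrivial (Fin n) := Fin.nontrivial_iff_two_le.2 hn
    exact exists_pair_ne _
  have hf : ∀ (A : SL(n, ℤ)) (x : E n), (fun x : E n => (ψ (J' n x) : E n)) (lin (ofZ A : SL(n, ℝ)) x) =
      lin (ofZ A : SL(n, ℝ)) ((fun x : E n => (ψ (J' n x) : E n)) x) := by
    intro A x
    have h1 : J' n (lin (ofZ A : SL(n, ℝ)) x) = der n (org n) (ofZ A) (J' n x) := by
      rw [der_eq, J_J']
    change (ψ (J' n (lin (ofZ A : SL(n, ℝ)) x)) : E n) = _
    rw [h1, hequiv]
    rfl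
  obtain ⟨c, hc⟩ := homothety hf hab hdiff.continuous
    ((hdiff.differentiable (by simp)).differentiableAt)
  have hc0 : c ≠ 0 := by
    intro h0
    have h1 : ∀ x : E n, (ψ (J' n x) : E n) = 0 := fun x => by rw [hc x, h0, zero_smul]
    have h2 : ψ (J' n (ev a)) = ψ (J' n 0) := Subtype.ext (by rw [h1, h1])
    have h3 := congrArg φ h2
    rw [hφψ _ (Set.mem_univ _), hφψ _ (Set.mem_univ _)] at h3
    have h4 := congrArg (J n) h3
    rw [J_J', J_J'] at h4
    exact ev_ne_zero a h4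
  have h1 := hc (c⁻¹ • ev a)
  rw [smul_smul, mul_inv_cancel₀ hc0, one_smul] at h1
  have h2 : ev a ∈ Om n := by
    rw [← h1]
    exact (ψ (J' n (c⁻¹ • ev a))).2
  apply h2
  refine ⟨Pi.single a 1, ?_, 1, le_rfl, (one_smul _ _).symm⟩
  intro h
  have := congrFun h a
  simp at this

/-- **Main result.** For every `n ≥ 2` there are a lattice `Γ` in `SL(n,ℝ)`, a contractible smooth
`n`-manifold `M` with a smooth action of `Γ` and a fixed point `p`, which is the only periodic point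
of the action, such that the derivative at `p` is unbounded and the action is linearizable near `p`,
but there is no `Γ`-invariant open neighbourhood of `p` on which the action is smoothly conjugate to
the linear action of `Γ` on `ℝ^n` by the derivatives at `p`. -/
theorem result (n : ℕ) (hn : 2 ≤ n) :
    ∃ Γ : Subgroup SL(n, ℝ), IsLattice Γ ∧
      ∃ (M : Type) (_ : TopologicalSpace M) (_ : ChartedSpace (E n) M) (_ : MulAction Γ M) (p : M),
        SmoothAction n Γ M ∧ ContractibleSpace M ∧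
        (∀ γ : Γ, γ • p = p) ∧ (∀ x : M, (MulAction.orbit Γ x).Finite → x = p) ∧
        (∀ C : ℝ, ∃ γ : Γ, C < ‖der n p γ‖) ∧ LinearizableNear n Γ p ∧
        ¬ HasLinearNeighborhood n Γ p :=
  ⟨Gam n, isLattice_Gam (by omega), Om n, inferInstance, inferInstance, act n, org n,
    smoothAction_Om n, contractible_Om n, smul_org, periodic_Om hn, unbounded_der hn,
    linearizable_Om n, not_global hn⟩

end Pool.Agent.Results.MP_2392aa_gt.NoGlobalModel
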